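import Pool.Agent.H854R3.NE.Ideal

/-!
Infinite critical associative rings: definitions and the list of tasks.
-/

set_option autoImplicit false

namespace Pool.Agent.H854R3.CR

open Pool.Agent.H854R3.NE

/-- `S` is isomorphic to a proper factor of `R`: a quotient `B / J` of a subring `B` of `R` by an
ideal `J` of `B`, where `B` is not the whole of `R` or `J` is not zero. -/
def ProperFactor (S R : Type) [NonUnitalRing S] [NonUnitalRing R] : Prop :=
  ∃ (B : NonUnitalSubring R) (f : B →ₙ+* S), Function.Surjective f ∧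
    (B ≠ ⊤ ∨ ¬ Function.Injective f)

/-- `R` is critical: some identity holds in all proper factors of `R` but not in `R`. -/
def Critical (R : Type) [NonUnitalRing R] : Prop :=
  ∃ e : RTerm × RTerm,
    (∀ (S : Type) [NonUnitalRing S], ProperFactor S R → Satisfies S e) ∧ ¬ Satisfies R e

/-- The elements of `J` satisfy the multilinear identity with coefficients `nn`. -/
def MId {U : Type} [Ring U] (J : Set U) (m : ℕ) (nn : Equiv.Perm (Fin m) → ℤ) : Prop :=
  ∀ a : Fin m → U, (∀ i, a i ∈ J) → ∑ π, nn π • (List.ofFn fun k => a (π k)).prod = 0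

/-- The elements of `J` satisfy a multilinear identity one of whose coefficients is `1`. -/
def PIOn {U : Type} [Ring U] (J : Set U) : Prop :=
  ∃ (m : ℕ) (nn : Equiv.Perm (Fin m) → ℤ) (π0 : Equiv.Perm (Fin m)), nn π0 = 1 ∧ MId J m nn

/-- `R` satisfies a multilinear polynomial identity one of whose coefficients is `1`. -/
def IsPI (R : Type) [NonUnitalRing R] : Prop :=
  PIOn (Set.range (Unitization.inr : R → Unitization ℤ R))

/-- `R` is finitely generated as a ring. -/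
def FGen (R : Type) [NonUnitalRing R] : Prop :=
  ∃ S : Set R, S.Finite ∧ NonUnitalSubring.closure S = ⊤

/-- prime rings -/
def PrimeU (Q : Type) [Ring Q] : Prop :=
  ∀ a b : Q, (∀ r, a * r * b = 0) → a = 0 ∨ b = 0

/-- left ideals -/
def LeftId {R : Type} [NonUnitalRing R] (L : AddSubgroup R) : Prop :=
  ∀ r x : R, x ∈ L → r * x ∈ L

/-- maximal left ideals of finite index -/
def MaxL {R : Type} [NonUnitalRing R] (L : AddSubgroup R) : Prop :=
  LeftId L ∧ L ≠ ⊤ ∧ L.FiniteIndex ∧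
    ∀ L' : AddSubgroup R, LeftId L' → L ≤ L' → L' = L ∨ L' = ⊤

/-- Lists of proper subrings such that each member together with the intersection of the later
members spans `R` additively. -/
def GoodList {R : Type} [NonUnitalRing R] : List (AddSubgroup R) → Prop
  | [] => True
  | L :: l => L ≠ ⊤ ∧ (∀ x ∈ L, ∀ y ∈ L, x * y ∈ L) ∧
      (∀ r : R, ∃ x y, (∀ M ∈ l, x ∈ M) ∧ y ∈ L ∧ x + y = r) ∧ GoodList l

/-- Non-nilpotent elements are detected by matrix representations over fields. -/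
def Det (R : Type) [NonUnitalRing R] : Prop :=
  ∀ β : R, (∀ k, npw β k ≠ 0) → ∃ (K : Type) (_ : Field K) (s : ℕ)
    (Θ : R →ₙ+* Matrix (Fin s) (Fin s) K), ∀ k, npw (Θ β) k ≠ 0

/-- The image of `R` in a prime quotient of its unitization contains no nonzero nil ideal. -/
def NoNil (R : Type) [NonUnitalRing R] : Prop :=
  ∀ (Q : Type) [Ring Q] (φ : Unitization ℤ R →+* Q), Function.Surjective φ → PrimeU Q →
    ∀ N : TwoSidedIdeal Q, (∀ x ∈ N, ∃ k, x ^ k = 0) → (∀ x ∈ N, ∃ r : R, φ r = x) → N = ⊥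

/-- `R` is a division ring. -/
def DivRing (R : Type) [NonUnitalRing R] : Prop :=
  ∃ e : R, e ≠ 0 ∧ (∀ x, e * x = x ∧ x * e = x) ∧ ∀ x, x ≠ 0 → ∃ y, x * y = e ∧ y * x = e

/-- `M` is a simple left module over `R` on which every nonzero element acts nontrivially. -/
def FaithSimple (R M : Type) [NonUnitalRing R] [AddCommGroup M] [Module (Unitization ℤ R) M] :
    Prop :=
  IsSimpleModule (Unitization ℤ R) M ∧
    ∀ r : R, r ≠ 0 → ∃ v : M, (r : Unitization ℤ R) • v ≠ 0

/-! ### Tasks for the first part: critical PI rings are finite -/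

/-- Task Mat. -/
def TaskMat : Prop :=
  ∀ (C : Type) [Ring C] (I : TwoSidedIdeal C), PIOn (I : Set C) → ∀ β ∈ I, (∀ k, β ^ k ≠ 0) →
    ∃ (K : Type) (_ : Field K) (s : ℕ) (Θ : C →+* Matrix (Fin s) (Fin s) K), ∀ k, Θ β ^ k ≠ 0

/-- Task Nil. -/
def TaskNil : Prop :=
  ∀ (Q : Type) [Ring Q], PrimeU Q → ∀ N : TwoSidedIdeal Q, (∀ x ∈ N, ∃ k, x ^ k = 0) →
    PIOn (N : Set Q) → N = ⊥

/-- Task Left. -/
def TaskLeft : Prop :=
  ∀ (R : Type) [NonUnitalRing R], FGen R → ∀ (K : Type) [Field K] (s : ℕ)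
    (Θ : R →ₙ+* Matrix (Fin s) (Fin s) K) (β : R), (∀ k, npw (Θ β) k ≠ 0) →
    ∃ L : AddSubgroup R, MaxL L ∧ β ∉ L

/-- Task Add. -/
def TaskAdd : Prop :=
  ∀ (R : Type) [NonUnitalRing R], Critical R →
    ∃ k : ℕ, ∀ l : List (AddSubgroup R), GoodList l → l.length ≤ k

/-- Task Pow. -/
def TaskPow : Prop :=
  ∀ (R : Type) [NonUnitalRing R], FGen R → NoNil R → ∀ K : AddSubgroup R, K.FiniteIndex →
    (∀ r x : R, x ∈ K → r * x ∈ K ∧ x * r ∈ K) → (∀ x ∈ K, ∃ k, npw x k = 0) → AddGroup.FG R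

/-- Task Ab. -/
def TaskAb : Prop :=
  ∀ (R : Type) [NonUnitalRing R], AddGroup.FG R → (∃ h : R, h ≠ 0 ∧ InAll h) → Finite R

/-! ### Tasks for the second part: infinite critical rings of prime characteristic -/

/-- Task Lin. -/
def TaskLin : Prop :=
  ∀ (p : ℕ) [Fact p.Prime] (e : RTerm × RTerm) (R : Type) [NonUnitalRing R],
    (∀ x : R, p • x = 0) → ¬ Satisfies R e → ∀ (S : Type) [NonUnitalRing S],
    (∀ x : S, p • x = 0) → Satisfies S e → IsPI S

/-- Task Div. -/
def TaskDiv : Prop :=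
  ∀ (R : Type) [NonUnitalRing R], (∀ L : AddSubgroup R, LeftId L → L = ⊥ ∨ L = ⊤) →
    (∃ x y : R, x * y ≠ 0) → DivRing R

/-- Task W. -/
def TaskW : Prop :=
  ∀ (R : Type) [NonUnitalRing R], FGen R → (∀ I : TwoSidedIdeal R, I = ⊥ ∨ I = ⊤) →
    (∃ x y : R, x * y ≠ 0) →
    ∃ (M : Type) (_ : AddCommGroup M) (_ : Module (Unitization ℤ R) M), FaithSimple R M

/-- Task Dim. -/
def TaskDim : Prop :=
  ∀ (R M : Type) [NonUnitalRing R] [AddCommGroup M] [Module (Unitization ℤ R) M] (k : ℕ),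
    (∃ x : R, x ≠ 0) → FaithSimple R M →
    (∀ l : List (AddSubgroup R), GoodList l → l.length ≤ k) →
    Module.Finite (Module.End (Unitization ℤ R) M) M

/-- Task Rep. -/
def TaskRep : Prop :=
  ∀ (R M : Type) [NonUnitalRing R] [AddCommGroup M] [Module (Unitization ℤ R) M],
    FaithSimple R M → Module.Finite (Module.End (Unitization ℤ R) M) M →
    ∀ B : AddSubgroup R, LeftId B → B ≠ ⊥ →
    PIOn {x : Unitization ℤ R | ∃ b ∈ B, x = (b : Unitization ℤ R)} →
    ∃ (K : Type) (_ : Field K) (s : ℕ) (Θ : R →ₙ+* Matrix (Fin s) (Fin s) K) (β : R), Θ β ≠ 0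

/-- Task Fin. -/
def TaskFin : Prop :=
  ∀ (R : Type) [NonUnitalRing R], FGen R → (∀ I : TwoSidedIdeal R, I = ⊥ ∨ I = ⊤) →
    ∀ (K : Type) [Field K] (s : ℕ) (Θ : R →ₙ+* Matrix (Fin s) (Fin s) K) (β : R), Θ β ≠ 0 →
    Finite R

end Pool.Agent.H854R3.CR
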