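import Pool.Agent.H854R3.CR.Stmts
import Pool.Agent.Helper824.GS

/-!
Existence of an infinite critical associative ring: statements.
-/

set_option autoImplicit false

namespace Pool.Agent.H854R3.CR

open Pool.Agent.H854R3.NE

/-! ### The ring-theoretic part -/

/-- `Pw R n` is the additive subgroup generated by the products of `n + 1` elements. -/
def Pw (R : Type) [NonUnitalRing R] : ℕ → AddSubgroup R
  | 0 => ⊤
  | n + 1 => AddSubgroup.closure {z | ∃ a ∈ Pw R n, ∃ b : R, z = a * b}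

/-- The properties of a two-generated ring which make its subdirectly irreducible quotient
critical and infinite. -/
def RingQ (R : Type) [NonUnitalRing R] (X Y : R) : Prop :=
  NonUnitalSubring.closure ({X, Y} : Set R) = ⊤ ∧
  (∀ r : R, 4 • r = 0) ∧
  (∀ a b c : R, 2 • (a * b * c) = 0) ∧
  (∀ a ∈ Pw R 1, ∀ b ∈ Pw R 1, NonUnitalSubring.closure ({X + a, Y + b} : Set R) = ⊤) ∧
  2 • (X * Y - Y * X) ≠ 0 ∧
  ∀ n, 2 • (X * Y - Y * X) ∈ Pw R n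

/-- Task F: finite rings in which every lift of the generators generates are nilpotent. -/
def TaskF : Prop :=
  ∀ (Q : Type) [NonUnitalRing Q] [Finite Q] (X Y : Q),
    (∀ a ∈ Pw Q 1, ∀ b ∈ Pw Q 1, NonUnitalSubring.closure ({X + a, Y + b} : Set Q) = ⊤) →
    ∃ n, Pw Q n = ⊥

/-- Task P. -/
def TaskP : Prop :=
  ∀ (R : Type) [NonUnitalRing R] (X Y : R), RingQ R X Y → ∀ u v : R,
    (∃ k : ℤ, 2 • (u * v - v * u) = k • (2 • (X * Y - Y * X))) ∧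
    (2 • (u * v - v * u) ≠ 0 → NonUnitalSubring.closure ({u, v} : Set R) = ⊤)

/-! ### The free algebras -/

/-- words in two letters -/
abbrev W2 := FreeMonoid (Fin 2)

/-- the free ring with one -/
abbrev G := MonoidAlgebra ℤ W2

/-- the free algebra over the field with two elements -/
abbrev F := Pool.Agent.Helper824.GS.FA (ZMod 2) (Fin 2)

/-- reduction modulo two -/
noncomputable def red : G →+* F := MonoidAlgebra.mapRingHom W2 (Int.castRingHom (ZMod 2))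

/-- all words of `f` have length at least `k` -/
def GeZ (k : ℕ) (f : G) : Prop := ∀ w, f.coeff w ≠ 0 → k ≤ w.length

/-- all words of `f` have length at least `k` -/
def GeF (k : ℕ) (f : F) : Prop := ∀ w, f.coeff w ≠ 0 → k ≤ w.length

/-- first generator -/
noncomputable def gx : G := MonoidAlgebra.single (FreeMonoid.of 0) 1
/-- second generator -/
noncomputable def gy : G := MonoidAlgebra.single (FreeMonoid.of 1) 1

/-- the endomorphism sending the generators to `gx + a`, `gy + b` -/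
noncomputable def ev (a b : G) : G →ₐ[ℤ] G :=
  MonoidAlgebra.lift ℤ G W2 (FreeMonoid.lift ![gx + a, gy + b])

/-- Task Inv: formal inversion. -/
def TaskInv : Prop :=
  ∀ a b : G, GeZ 2 a → GeZ 2 b → ∀ g : G, GeZ 1 g → ∀ M : ℕ,
    ∃ W : G, GeZ 1 W ∧ GeZ M (g - ev a b W)

/-- condition 1 -/
def C1 (I : Submodule (ZMod 2) F) : Prop := ∀ f ∈ I, GeF 3 f

/-- condition 2 -/
def C2 (I : Submodule (ZMod 2) F) (ℓ : F →ₗ[ZMod 2] ZMod 2) : Prop :=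
  ∀ f ∈ I, ∀ g : F, GeF 1 g → g * f ∈ I ∧ f * g ∈ I ∧ ℓ (g * f) = 0 ∧ ℓ (f * g) = 0

/-- condition 3 -/
def C3 (I : Submodule (ZMod 2) F) (ℓ : F →ₗ[ZMod 2] ZMod 2) : Prop :=
  ∀ n, ∃ m ∈ I, GeF n m ∧ ℓ m = 1

/-- condition 4 -/
def C4 (I : Submodule (ZMod 2) F) (ℓ : F →ₗ[ZMod 2] ZMod 2) : Prop :=
  ∀ a b : G, GeZ 2 a → GeZ 2 b →
    (∃ W : G, GeZ 1 W ∧ GeZ 3 (gx - ev a b W) ∧ red (gx - ev a b W) ∈ I ∧
      ℓ (red (gx - ev a b W)) = 0) ∧
    (∃ W : G, GeZ 1 W ∧ GeZ 3 (gy - ev a b W) ∧ red (gy - ev a b W) ∈ I ∧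
      ℓ (red (gy - ev a b W)) = 0)

/-- Task GS: a graded ideal generated by few relations, with a functional. -/
def TaskGS : Prop :=
  ∀ ρ σ : ℕ → ℕ → F, (∀ i M, GeF M (ρ i M) ∧ GeF M (σ i M)) →
    ∃ (I : Submodule (ZMod 2) F) (ℓ : F →ₗ[ZMod 2] ZMod 2), C1 I ∧ C2 I ℓ ∧ C3 I ℓ ∧
      ∀ i, ∃ M, 3 ≤ M ∧ ρ i M ∈ I ∧ ℓ (ρ i M) = 0 ∧ σ i M ∈ I ∧ ℓ (σ i M) = 0

/-- Task Core. -/
def TaskCore : Prop :=
  TaskInv → TaskGS → ∃ (I : Submodule (ZMod 2) F) (ℓ : F →ₗ[ZMod 2] ZMod 2),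
    C1 I ∧ C2 I ℓ ∧ C3 I ℓ ∧ C4 I ℓ

/-- the ideal of relations of the ring -/
def InJ (I : Submodule (ZMod 2) F) (ℓ : F →ₗ[ZMod 2] ZMod 2) (f : G) : Prop :=
  red f ∈ I ∧ ∀ w : W2, w.length ≤ 2 →
    (4 : ℤ) ∣ f.coeff w - 2 * ((ℓ (red f)).val : ℤ) * (gx * gy - gy * gx).coeff w

/-- `R` is the quotient of the free ring without one by the ideal `InJ` -/
def IsQuot (I : Submodule (ZMod 2) F) (ℓ : F →ₗ[ZMod 2] ZMod 2) (R : Type) [NonUnitalRing R]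
    (π : G → R) : Prop :=
  (∀ f g, GeZ 1 f → GeZ 1 g → π (f + g) = π f + π g ∧ π (f * g) = π f * π g) ∧
  (∀ r : R, ∃ f, GeZ 1 f ∧ π f = r) ∧
  ∀ f, GeZ 1 f → (π f = 0 ↔ InJ I ℓ f)

/-- Task R1. -/
def TaskR1 : Prop :=
  ∀ (I : Submodule (ZMod 2) F) (ℓ : F →ₗ[ZMod 2] ZMod 2), C1 I → C2 I ℓ →
    ∃ (R : Type) (_ : NonUnitalRing R) (π : G → R), IsQuot I ℓ R π

/-- Task R2. -/
def TaskR2 : Prop :=
  ∀ (I : Submodule (ZMod 2) F) (ℓ : F →ₗ[ZMod 2] ZMod 2), C1 I → C2 I ℓ → C3 I ℓ → C4 I ℓ →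
    ∀ (R : Type) [NonUnitalRing R] (π : G → R), IsQuot I ℓ R π → RingQ R (π gx) (π gy)

end Pool.Agent.H854R3.CR
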