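import Pool.Agent.H854R3.CR.Stmts
import Pool.Agent.H854R3.NE.Dom

/-! Glue: consequences of criticality, extensions of PI rings by PI rings. -/

set_option autoImplicit false

namespace Pool.Agent.H854R3.CR

open Pool.Agent.H854R3.NE

/-- a bound for the variables -/
def bd : RTerm → ℕ
  | .var i => i + 1
  | .zero => 0
  | .neg s => bd s
  | .add s t => max (bd s) (bd t)
  | .mul s t => max (bd s) (bd t)

theorem val_congr {R : Type} [NonUnitalRing R] (v w : ℕ → R) (t : RTerm)
    (h : ∀ i < bd t, v i = w i) : t.val v = t.val w := by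
  induction t with
  | var i => exact h i (Nat.lt_succ_self i)
  | zero => rfl
  | neg s ih => simp only [RTerm.val]; rw [ih h]
  | add s t ih1 ih2 =>
    simp only [RTerm.val]
    rw [ih1 (fun i hi => h i (lt_of_lt_of_le hi (le_max_left _ _))),
      ih2 (fun i hi => h i (lt_of_lt_of_le hi (le_max_right _ _)))]
  | mul s t ih1 ih2 =>
    simp only [RTerm.val]
    rw [ih1 (fun i hi => h i (lt_of_lt_of_le hi (le_max_left _ _))),
      ih2 (fun i hi => h i (lt_of_lt_of_le hi (le_max_right _ _)))]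

variable {R : Type} [NonUnitalRing R]

theorem proper_sub (B : NonUnitalSubring R) (hB : B ≠ ⊤) : ProperFactor B R :=
  ⟨B, NonUnitalRingHom.id B, fun x => ⟨x, rfl⟩, Or.inl hB⟩

theorem proper_quot {Q : Type} [NonUnitalRing Q] (φ : R →ₙ+* Q) (hφ : Function.Surjective φ)
    (h : ∃ x, x ≠ 0 ∧ φ x = 0) : ProperFactor Q R := by
  refine ⟨⊤, φ.comp (NonUnitalSubringClass.subtype ⊤), ?_, Or.inr ?_⟩
  · intro q
    obtain ⟨x, rfl⟩ := hφ q
    exact ⟨⟨x, trivial⟩, rfl⟩
  · intro hinj
    obtain ⟨x, hx, hx0⟩ := h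
    have h1 : (⟨x, trivial⟩ : (⊤ : NonUnitalSubring R)) = 0 := by
      apply hinj
      rw [map_zero]
      exact hx0
    exact hx (congrArg Subtype.val h1)

theorem critical_bas (h : Critical R) : FGen R ∧ ∃ h : R, h ≠ 0 ∧ InAll h := by
  obtain ⟨e, he, hne⟩ := h
  have hv : ∃ v : ℕ → R, e.1.val v ≠ e.2.val v := by
    by_contra hcon
    push Not at hcon
    exact hne hcon
  obtain ⟨v, hv⟩ := hv
  constructor
  · let N := max (bd e.1) (bd e.2)
    let w : ℕ → R := fun i => if i < N then v i else 0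
    have h1 : e.1.val w = e.1.val v := val_congr _ _ _ (fun i hi => by
      simp only [w]; rw [if_pos (lt_of_lt_of_le hi (le_max_left _ _))])
    have h2 : e.2.val w = e.2.val v := val_congr _ _ _ (fun i hi => by
      simp only [w]; rw [if_pos (lt_of_lt_of_le hi (le_max_right _ _))])
    refine ⟨v '' (Set.Iio N), (Set.finite_Iio N).image v, ?_⟩
    by_contra hB
    set B := NonUnitalSubring.closure (v '' (Set.Iio N)) with hBdef
    have hw : ∀ i, w i ∈ B := by
      intro i
      simp only [w]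
      split_ifs with hi
      · exact NonUnitalSubring.subset_closure ⟨i, hi, rfl⟩
      · exact zero_mem _
    have h3 := he B (proper_sub B hB) (fun i => ⟨w i, hw i⟩)
    have h4 := congrArg (NonUnitalSubringClass.subtype B) h3
    rw [val_map, val_map] at h4
    apply hv
    rw [← h1, ← h2]
    exact h4
  · refine ⟨e.1.val v - e.2.val v, sub_ne_zero.2 hv, ?_⟩
    intro I hI
    obtain ⟨Q, inst, φ, hφ, hker⟩ := exists_quot I
    rw [← hker]
    obtain ⟨x, hx, hx0⟩ := exists_mem_ne hI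
    have h1 := he Q (proper_quot φ hφ ⟨x, hx0, (hker x).2 hx⟩)
    have h2 := h1 (fun i => φ (v i))
    rw [map_sub, val_map, val_map, h2, sub_self]

/-! ### Unitization -/

/-- the functor -/
def umap {S : Type} [NonUnitalRing S] (ψ : R →ₙ+* S) : Unitization ℤ R →+* Unitization ℤ S where
  toFun x := ⟨(x.fst, ψ x.snd)⟩
  map_one' := by
    apply Unitization.ext
    · rfl
    · change ψ (1 : Unitization ℤ R).snd = (1 : Unitization ℤ S).snd
      rw [Unitization.snd_one, Unitization.snd_one, map_zero]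
  map_mul' x y := by
    apply Unitization.ext
    · rfl
    · change ψ (x * y).snd = x.fst • ψ y.snd + y.fst • ψ x.snd + ψ x.snd * ψ y.snd
      rw [Unitization.snd_mul, map_add, map_add, map_zsmul, map_zsmul, map_mul]
  map_zero' := by
    apply Unitization.ext
    · rfl
    · change ψ (0 : Unitization ℤ R).snd = (0 : Unitization ℤ S).snd
      rw [Unitization.snd_zero, Unitization.snd_zero, map_zero]
  map_add' x y := by
    apply Unitization.ext
    · rfl
    · change ψ (x + y).snd = ψ x.snd + ψ y.snd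
      rw [Unitization.snd_add, map_add]

theorem umap_inr {S : Type} [NonUnitalRing S] (ψ : R →ₙ+* S) (x : R) :
    umap ψ (x : Unitization ℤ R) = (ψ x : Unitization ℤ S) := rfl

theorem umap_eq_zero {S : Type} [NonUnitalRing S] (ψ : R →ₙ+* S) {x : Unitization ℤ R}
    (h : umap ψ x = 0) : ∃ r : R, ψ r = 0 ∧ x = (r : Unitization ℤ R) := by
  have h2 : x.fst = 0 := congrArg (fun z : Unitization ℤ S => z.fst) h
  have h3 : ψ x.snd = 0 := congrArg (fun z : Unitization ℤ S => z.snd) h
  refine ⟨x.snd, h3, ?_⟩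
  apply Unitization.ext
  · rw [h2]; rfl
  · rfl

theorem mul_inr (x : Unitization ℤ R) (a : R) : x * (a : Unitization ℤ R) =
    ((x.fst • a + x.snd * a : R) : Unitization ℤ R) := by
  apply Unitization.ext
  · rw [Unitization.fst_mul, Unitization.fst_inr, mul_zero, Unitization.fst_inr]
  · rw [Unitization.snd_mul, Unitization.snd_inr, Unitization.fst_inr, zero_smul, add_zero,
      Unitization.snd_inr]

theorem inr_mul' (x : Unitization ℤ R) (a : R) : (a : Unitization ℤ R) * x =
    ((x.fst • a + a * x.snd : R) : Unitization ℤ R) := by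
  apply Unitization.ext
  · rw [Unitization.fst_mul, Unitization.fst_inr, zero_mul, Unitization.fst_inr]
  · rw [Unitization.snd_mul, Unitization.snd_inr, Unitization.fst_inr, zero_smul, zero_add,
      Unitization.snd_inr]

theorem zsmul_mem_ideal (H : TwoSidedIdeal R) {a : R} (ha : a ∈ H) (k : ℤ) : k • a ∈ H := by
  induction k using Int.induction_on with
  | zero => rw [zero_smul]; exact H.zero_mem
  | succ k ih => rw [add_smul, one_smul]; exact H.add_mem ih ha
  | pred k ih => rw [sub_smul, one_smul]; exact H.sub_mem ih ha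

/-- the two-sided ideal of the unitization given by a two-sided ideal -/
def uId (H : TwoSidedIdeal R) : TwoSidedIdeal (Unitization ℤ R) :=
  TwoSidedIdeal.mk' {x | ∃ h ∈ H, x = (h : Unitization ℤ R)}
    ⟨0, H.zero_mem, by simp⟩
    (by
      rintro _ _ ⟨a, ha, rfl⟩ ⟨b, hb, rfl⟩
      exact ⟨a + b, H.add_mem ha hb, by simp⟩)
    (by
      rintro _ ⟨a, ha, rfl⟩
      exact ⟨-a, H.neg_mem ha, by simp⟩)
    (by
      rintro x _ ⟨a, ha, rfl⟩
      exact ⟨x.fst • a + x.snd * a, H.add_mem (zsmul_mem_ideal H ha _) (H.mul_mem_left _ _ ha),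
        mul_inr x a⟩)
    (by
      rintro _ x ⟨a, ha, rfl⟩
      exact ⟨x.fst • a + a * x.snd, H.add_mem (zsmul_mem_ideal H ha _) (H.mul_mem_right _ _ ha),
        inr_mul' x a⟩)

theorem mem_uId (H : TwoSidedIdeal R) (x : Unitization ℤ R) :
    x ∈ uId H ↔ ∃ h ∈ H, x = (h : Unitization ℤ R) :=
  TwoSidedIdeal.mem_mk' _ _ _ _ _ _ x

/-- the value of a multilinear polynomial -/
def sp {U : Type} [Ring U] {m : ℕ} (nn : Equiv.Perm (Fin m) → ℤ) (b : Fin m → U) : U :=
  ∑ π, nn π • (List.ofFn fun k => b (π k)).prod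

theorem MId_iff {U : Type} [Ring U] {J : Set U} {m : ℕ} {nn : Equiv.Perm (Fin m) → ℤ} :
    MId J m nn ↔ ∀ a : Fin m → U, (∀ i, a i ∈ J) → sp nn a = 0 := Iff.rfl

theorem map_sp {U V : Type} [Ring U] [Ring V] (f : U →+* V) {m : ℕ}
    (nn : Equiv.Perm (Fin m) → ℤ) (b : Fin m → U) :
    f (sp nn b) = sp nn (fun i => f (b i)) := by
  unfold sp
  rw [map_sum]
  apply Finset.sum_congr rfl
  intro π _
  rw [map_zsmul, map_list_prod, List.map_ofFn]
  rfl

/-- ring homomorphisms between rings -/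
def mkHom {U V : Type} [Ring U] [Ring V] (f : U → V) (h1 : f 1 = 1)
    (hm : ∀ x y, f (x * y) = f x * f y) (h0 : f 0 = 0) (ha : ∀ x y, f (x + y) = f x + f y) :
    U →+* V :=
  { toFun := f
    map_one' := h1
    map_mul' := hm
    map_zero' := h0
    map_add' := ha }

theorem map_spU {V : Type} [Ring V] (φ : Unitization ℤ R →+* V) {m : ℕ}
    (nn : Equiv.Perm (Fin m) → ℤ) (b : Fin m → Unitization ℤ R) :
    φ (sp nn b) = sp nn (fun i => φ (b i)) :=
  map_sp (mkHom φ (map_one φ) (map_mul φ) (map_zero φ) (map_add φ)) nn b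

theorem umap_sp {S : Type} [NonUnitalRing S] (ψ : R →ₙ+* S) {m : ℕ}
    (nn : Equiv.Perm (Fin m) → ℤ) (b : Fin m → R) :
    umap ψ (sp nn (fun i => (b i : Unitization ℤ R))) =
      sp nn (fun i => (ψ (b i) : Unitization ℤ S)) := by
  have h := map_sp (mkHom (umap ψ) (map_one (umap ψ)) (map_mul (umap ψ)) (map_zero (umap ψ))
    (map_add (umap ψ))) nn (fun i => (b i : Unitization ℤ R))
  exact h

/-- an identity is transported by ring homomorphisms -/
theorem MId.map {U V : Type} [Ring U] [Ring V] {J : Set U} {m : ℕ}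
    {nn : Equiv.Perm (Fin m) → ℤ} (h : MId J m nn) (f : U →+* V) {J' : Set V}
    (hJ : ∀ x ∈ J', ∃ y ∈ J, f y = x) : MId J' m nn := by
  intro a ha
  choose b hb hfb using fun i => hJ (a i) (ha i)
  have h1 := congrArg f (h b hb)
  rw [map_zero, map_sum] at h1
  rw [← h1]
  apply Finset.sum_congr rfl
  intro π _
  rw [map_zsmul, map_list_prod, List.map_ofFn]
  congr 2
  congr 1
  funext k
  exact (hfb _).symm

theorem PIOn.map {U V : Type} [Ring U] [Ring V] {J : Set U} (h : PIOn J) (f : U →+* V)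
    {J' : Set V} (hJ : ∀ x ∈ J', ∃ y ∈ J, f y = x) : PIOn J' := by
  obtain ⟨m, nn, π0, h0, hid⟩ := h
  exact ⟨m, nn, π0, h0, hid.map f hJ⟩

/-- extensions of PI rings by PI rings -/
def PIPI (R : Type) [NonUnitalRing R] : Prop :=
  ∃ H : TwoSidedIdeal R, PIOn {x : Unitization ℤ R | ∃ h ∈ H, x = (h : Unitization ℤ R)} ∧
    ∀ (Q : Type) [NonUnitalRing Q] (φ : R →ₙ+* Q), Function.Surjective φ →
      (∀ x, φ x = 0 ↔ x ∈ H) → IsPI Q

theorem trivial_PI (Q : Type) [NonUnitalRing Q] (h : ∀ x : Q, x = 0) : IsPI Q := by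
  refine ⟨1, fun _ => 1, 1, rfl, ?_⟩
  intro a ha
  obtain ⟨q, hq⟩ := ha 0
  apply Finset.sum_eq_zero
  intro π _
  have h1 : π 0 = 0 := Subsingleton.elim _ _
  rw [one_smul, List.ofFn_succ, List.prod_cons, h1, ← hq, h q]
  simp

theorem IsPI.pipi (h : IsPI R) : PIPI R := by
  refine ⟨⊤, ?_, ?_⟩
  · obtain ⟨m, nn, π0, h0, hid⟩ := h
    refine ⟨m, nn, π0, h0, ?_⟩
    intro a ha
    apply hid
    intro i
    obtain ⟨x, _, hx⟩ := ha i
    exact ⟨x, hx.symm⟩
  · intro Q _ φ hφ hker
    apply trivial_PI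
    intro q
    obtain ⟨x, rfl⟩ := hφ q
    exact (hker x).2 trivial

theorem det_of_pipi (hMat : TaskMat) (h : PIPI R) : Det R := by
  obtain ⟨H, hH, hQ⟩ := h
  intro β hβ
  obtain ⟨Q, inst, φ, hφ, hker⟩ := exists_quot H
  by_cases hn : ∀ k, npw (φ β) k ≠ 0
  · have hPI := hQ Q φ hφ hker
    have h1 : PIOn ((uId (⊤ : TwoSidedIdeal Q) : TwoSidedIdeal (Unitization ℤ Q)) :
        Set (Unitization ℤ Q)) := by
      refine hPI.map (RingHom.id _) ?_
      intro x hx
      obtain ⟨q, _, hq⟩ := (mem_uId _ _).1 hx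
      exact ⟨x, ⟨q, hq.symm⟩, rfl⟩
    obtain ⟨K, iK, s, Θ, hΘ⟩ := hMat (Unitization ℤ Q) (uId ⊤) h1 (φ β : Unitization ℤ Q)
      ((mem_uId _ _).2 ⟨φ β, by trivial, rfl⟩) (by
        intro k
        cases k with
        | zero => rw [pow_zero]; exact one_ne_zero
        | succ k =>
          rw [← inr_npw]
          intro h
          exact hn k (Unitization.inr_injective (h.trans (Unitization.inr_zero ℤ).symm)))
    refine ⟨K, iK, s,
      { toFun := fun r => Θ (φ r : Unitization ℤ Q)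
        map_mul' := by intro a b; rw [map_mul, Unitization.inr_mul, map_mul]
        map_zero' := by rw [map_zero, Unitization.inr_zero, map_zero]
        map_add' := by intro a b; rw [map_add, Unitization.inr_add, map_add] }, ?_⟩
    intro k hk
    apply hΘ (k + 1)
    have e1 : ∀ k, npw (Θ (φ β : Unitization ℤ Q)) k = Θ (φ β : Unitization ℤ Q) ^ (k + 1) := by
      intro k
      induction k with
      | zero => rw [zero_add, pow_one]; rfl
      | succ k ih => rw [pow_succ, ← ih]; rfl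
    rw [← e1]
    exact hk
  · push Not at hn
    obtain ⟨j, hj⟩ := hn
    rw [← npw_map, hker] at hj
    have h1 : PIOn ((uId H : TwoSidedIdeal (Unitization ℤ R)) : Set (Unitization ℤ R)) := by
      refine hH.map (RingHom.id _) ?_
      intro x hx
      obtain ⟨q, hq, hx⟩ := (mem_uId _ _).1 hx
      exact ⟨x, ⟨q, hq, hx⟩, rfl⟩
    have e2 : ∀ k, ((β : Unitization ℤ R) ^ (j + 1)) ^ k ≠ 0 := by
      intro k
      rw [← pow_mul]
      cases h2 : (j + 1) * k with
      | zero => rw [pow_zero]; exact one_ne_zero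
      | succ i =>
        rw [← inr_npw]
        intro h
        exact hβ i (Unitization.inr_injective (h.trans (Unitization.inr_zero ℤ).symm))
    obtain ⟨K, iK, s, Θ, hΘ⟩ := hMat (Unitization ℤ R) (uId H) h1 ((β : Unitization ℤ R) ^ (j + 1))
      ((mem_uId _ _).2 ⟨npw β j, hj, (inr_npw β j).symm⟩) e2
    refine ⟨K, iK, s,
      { toFun := fun r => Θ (r : Unitization ℤ R)
        map_mul' := by intro a b; rw [Unitization.inr_mul, map_mul]
        map_zero' := by rw [Unitization.inr_zero, map_zero]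
        map_add' := by intro a b; rw [Unitization.inr_add, map_add] }, ?_⟩
    intro k hk
    have e1 : ∀ k, npw (Θ (β : Unitization ℤ R)) k = Θ (β : Unitization ℤ R) ^ (k + 1) := by
      intro k
      induction k with
      | zero => rw [zero_add, pow_one]; rfl
      | succ k ih => rw [pow_succ, ← ih]; rfl
    apply hΘ (k + 1)
    have e3 : Θ (β : Unitization ℤ R) ^ (k + 1) = 0 := by rw [← e1]; exact hk
    rw [map_pow, ← pow_mul, mul_comm, pow_mul, e3, zero_pow (Nat.succ_ne_zero j)]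

theorem nonil_of_pipi (hNil : TaskNil) (h : PIPI R) : NoNil R := by
  obtain ⟨H, hH, hQ⟩ := h
  intro Q instQ φ hφ hP N hN hNR
  obtain ⟨S, instS, ψ, hψ, hker⟩ := exists_quot H
  -- the image of H
  let H' : TwoSidedIdeal Q := TwoSidedIdeal.mk' {x | ∃ h ∈ uId H, φ h = x}
    ⟨0, (uId H).zero_mem, map_zero φ⟩
    (by
      rintro _ _ ⟨a, ha, rfl⟩ ⟨b, hb, rfl⟩
      exact ⟨a + b, (uId H).add_mem ha hb, map_add φ a b⟩)
    (by
      rintro _ ⟨a, ha, rfl⟩
      exact ⟨-a, (uId H).neg_mem ha, map_neg φ a⟩)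
    (by
      rintro x _ ⟨a, ha, rfl⟩
      obtain ⟨y, rfl⟩ := hφ x
      exact ⟨y * a, (uId H).mul_mem_left _ _ ha, map_mul φ y a⟩)
    (by
      rintro _ x ⟨a, ha, rfl⟩
      obtain ⟨y, rfl⟩ := hφ x
      exact ⟨a * y, (uId H).mul_mem_right _ _ ha, map_mul φ a y⟩)
  have hH' : ∀ x, x ∈ H' ↔ ∃ h ∈ uId H, φ h = x := fun x => TwoSidedIdeal.mem_mk' _ _ _ _ _ _ x
  have h1 : N ⊓ H' = ⊥ := by
    apply hNil Q hP
    · intro x hx
      exact hN x ((TwoSidedIdeal.mem_inf Q).1 hx).1
    · refine hH.map φ ?_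
      intro x hx
      obtain ⟨y, hy, hyx⟩ := (hH' x).1 ((TwoSidedIdeal.mem_inf Q).1 hx).2
      exact ⟨y, (mem_uId _ _).1 hy, hyx⟩
  by_cases h2 : ∀ x ∈ H', x = 0
  · -- the map kills H
    apply hNil Q hP N hN
    obtain ⟨m, nn, π0, h0, hid⟩ := hQ S ψ hψ hker
    refine ⟨m, nn, π0, h0, ?_⟩
    rw [MId_iff] at hid ⊢
    intro a ha
    choose r hr using fun i => hNR (a i) (ha i)
    have h3 := hid (fun i => (ψ (r i) : Unitization ℤ S)) (fun i => ⟨_, rfl⟩)
    have h4 : umap ψ (sp nn (fun i => (r i : Unitization ℤ R))) = 0 := (umap_sp ψ nn r).trans h3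
    obtain ⟨z, hz, hz'⟩ := umap_eq_zero ψ h4
    have h5 : φ (z : Unitization ℤ R) = 0 :=
      h2 _ ((hH' _).2 ⟨_, (mem_uId _ _).2 ⟨z, (hker z).1 hz, rfl⟩, rfl⟩)
    rw [← hz'] at h5
    have h6 := map_spU φ nn (fun i => (r i : Unitization ℤ R))
    simp only [hr] at h6
    exact h6.symm.trans h5
  · push Not at h2
    obtain ⟨y, hy, hy0⟩ := h2
    apply le_antisymm _ bot_le
    intro x hx
    rw [TwoSidedIdeal.mem_bot]
    rcases hP x y (fun r => by
      have h3 : x * r * y ∈ N ⊓ H' := (TwoSidedIdeal.mem_inf Q).2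
        ⟨N.mul_mem_right _ _ (N.mul_mem_right _ _ hx), H'.mul_mem_left _ _ hy⟩
      rw [h1] at h3
      exact (TwoSidedIdeal.mem_bot _).1 h3) with h | h
    · exact h
    · exact absurd h hy0

end Pool.Agent.H854R3.CR
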