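import Pool.Agent.H854R3.CR.Stmts2
import Pool.Agent.H854R3.CR.Glue

/-! From the ring with the property `RingQ` to an infinite critical ring. -/

set_option autoImplicit false

namespace Pool.Agent.H854R3.CR

open Pool.Agent.H854R3.NE

variable {R : Type} [NonUnitalRing R]

theorem lift_Pw {Q : Type} [NonUnitalRing Q] (φ : R →ₙ+* Q) (hφ : Function.Surjective φ) (n : ℕ) :
    ∀ a ∈ Pw Q n, ∃ a' ∈ Pw R n, φ a' = a := by
  induction n with
  | zero =>
    intro a _
    obtain ⟨x, rfl⟩ := hφ a
    exact ⟨x, trivial, rfl⟩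
  | succ n ih =>
    intro a ha
    change a ∈ AddSubgroup.closure _ at ha
    induction ha using AddSubgroup.closure_induction with
    | mem z hz =>
      obtain ⟨b, hb, c, rfl⟩ := hz
      obtain ⟨b', hb', rfl⟩ := ih b hb
      obtain ⟨c', rfl⟩ := hφ c
      exact ⟨b' * c', AddSubgroup.subset_closure ⟨b', hb', c', rfl⟩, map_mul φ b' c'⟩
    | zero => exact ⟨0, zero_mem _, map_zero φ⟩
    | add x y _ _ h1 h2 =>
      obtain ⟨x', hx', rfl⟩ := h1
      obtain ⟨y', hy', rfl⟩ := h2
      exact ⟨x' + y', add_mem hx' hy', map_add φ x' y'⟩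
    | neg x _ h1 =>
      obtain ⟨x', hx', rfl⟩ := h1
      exact ⟨-x', neg_mem hx', map_neg φ x'⟩

theorem map_Pw {Q : Type} [NonUnitalRing Q] (φ : R →ₙ+* Q) (n : ℕ) :
    ∀ a ∈ Pw R n, φ a ∈ Pw Q n := by
  induction n with
  | zero => intro a _; trivial
  | succ n ih =>
    intro a ha
    change a ∈ AddSubgroup.closure _ at ha
    induction ha using AddSubgroup.closure_induction with
    | mem z hz =>
      obtain ⟨b, hb, c, rfl⟩ := hz
      rw [map_mul]
      exact AddSubgroup.subset_closure ⟨φ b, ih b hb, φ c, rfl⟩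
    | zero => rw [map_zero]; exact zero_mem _
    | add x y _ _ h1 h2 => rw [map_add]; exact add_mem h1 h2
    | neg x _ h1 => rw [map_neg]; exact neg_mem h1

theorem closure_map_top {Q : Type} [NonUnitalRing Q] (φ : R →ₙ+* Q)
    (hφ : Function.Surjective φ) (u v : R)
    (h : NonUnitalSubring.closure ({u, v} : Set R) = ⊤) :
    NonUnitalSubring.closure ({φ u, φ v} : Set Q) = ⊤ := by
  rw [eq_top_iff]
  intro q _
  obtain ⟨r, rfl⟩ := hφ q
  have h1 : NonUnitalSubring.closure ({u, v} : Set R) ≤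
      (NonUnitalSubring.closure ({φ u, φ v} : Set Q)).comap φ := by
    rw [NonUnitalSubring.closure_le]
    rintro x (rfl | hx)
    · exact NonUnitalSubring.subset_closure (Or.inl rfl)
    · rw [Set.mem_singleton_iff] at hx
      subst hx
      exact NonUnitalSubring.subset_closure (Or.inr rfl)
  have h2 : r ∈ NonUnitalSubring.closure ({u, v} : Set R) := by rw [h]; trivial
  exact h1 h2

/-- the commutator -/
def tcom : RTerm :=
  .add (.mul (.var 0) (.var 1)) (.neg (.mul (.var 1) (.var 0)))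

/-- the identity `2 [x, y] = 0` -/
def e2 : RTerm × RTerm := (.add tcom tcom, .zero)

theorem val_e2 (v : ℕ → R) : e2.1.val v = 2 • (v 0 * v 1 - v 1 * v 0) := by
  change (v 0 * v 1 + -(v 1 * v 0)) + (v 0 * v 1 + -(v 1 * v 0)) = _
  rw [two_nsmul, sub_eq_add_neg]

theorem satisfies_e2 : Satisfies R e2 ↔ ∀ u v : R, 2 • (u * v - v * u) = 0 := by
  constructor
  · intro h u v
    have h1 := h (fun i => if i = 0 then u else v)
    rw [val_e2] at h1
    exact h1
  · intro h v
    rw [val_e2]
    exact h _ _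

theorem exists_critical (hF : TaskF) (hP : TaskP) (X Y : R) (h : RingQ R X Y) :
    ∃ (S : Type) (_ : NonUnitalRing S), Infinite S ∧ Critical S := by
  have hPuv := hP R X Y h
  obtain ⟨hg, h4, h3, hfr, hne, hpw⟩ := h
  obtain ⟨Q, inst, φ, hφ, hφ0, hIn⟩ := exists_si_quot hne
  have hcomm : ∀ u v : R, φ (2 • (u * v - v * u)) = 2 • (φ u * φ v - φ v * φ u) := by
    intro u v
    rw [map_nsmul, map_sub, map_mul, map_mul]
  -- properties of Q
  have hQ1 : ∀ u v : Q, ∃ k : ℤ, 2 • (u * v - v * u) = k • φ (2 • (X * Y - Y * X)) := by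
    intro u v
    obtain ⟨u, rfl⟩ := hφ u
    obtain ⟨v, rfl⟩ := hφ v
    obtain ⟨k, hk⟩ := (hPuv u v).1
    refine ⟨k, ?_⟩
    rw [← hcomm, hk, map_zsmul]
  have hQ2 : ∀ u v : Q, 2 • (u * v - v * u) ≠ 0 →
      NonUnitalSubring.closure ({u, v} : Set Q) = ⊤ := by
    intro u v huv
    obtain ⟨u, rfl⟩ := hφ u
    obtain ⟨v, rfl⟩ := hφ v
    apply closure_map_top φ hφ
    apply (hPuv u v).2
    intro h0
    apply huv
    rw [← hcomm, h0, map_zero]
  refine ⟨Q, inst, ?_, e2, ?_, ?_⟩
  · by_contra hfin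
    rw [not_infinite_iff_finite] at hfin
    obtain ⟨n, hn⟩ := hF Q (φ X) (φ Y) (by
      intro a ha b hb
      obtain ⟨a', ha', rfl⟩ := lift_Pw φ hφ 1 a ha
      obtain ⟨b', hb', rfl⟩ := lift_Pw φ hφ 1 b hb
      rw [← map_add, ← map_add]
      exact closure_map_top φ hφ _ _ (hfr a' ha' b' hb'))
    have h1 := map_Pw φ n _ (hpw n)
    rw [hn, AddSubgroup.mem_bot] at h1
    exact hφ0 h1
  · intro S instS hS
    obtain ⟨B, f, hf, hBf⟩ := hS
    rw [satisfies_e2]
    intro s t
    obtain ⟨u, rfl⟩ := hf s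
    obtain ⟨v, rfl⟩ := hf t
    have h1 : 2 • (f u * f v - f v * f u) = f (2 • (u * v - v * u)) := by
      rw [map_nsmul, map_sub, map_mul, map_mul]
    rw [h1]
    by_cases hB : B = ⊤
    · -- the kernel
      have hinj : ¬ Function.Injective f := by
        rcases hBf with h | h
        · exact absurd hB h
        · exact h
      have hmem : ∀ x : Q, x ∈ B := fun x => by rw [hB]; trivial
      let I : TwoSidedIdeal Q := TwoSidedIdeal.mk' {x | f ⟨x, hmem x⟩ = 0}
        (map_zero f)
        (by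
          intro x y hx hy
          change f (⟨x, hmem x⟩ + ⟨y, hmem y⟩) = 0
          rw [map_add, hx, hy, add_zero])
        (by
          intro x hx
          change f (-⟨x, hmem x⟩) = 0
          rw [map_neg, hx, neg_zero])
        (by
          intro x y hy
          change f (⟨x, hmem x⟩ * ⟨y, hmem y⟩) = 0
          rw [map_mul, hy, mul_zero])
        (by
          intro x y hx
          change f (⟨x, hmem x⟩ * ⟨y, hmem y⟩) = 0
          rw [map_mul, hx, zero_mul])
      have hI : ∀ x, x ∈ I ↔ f ⟨x, hmem x⟩ = 0 := fun x => TwoSidedIdeal.mem_mk' _ _ _ _ _ _ x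
      have hIne : I ≠ ⊥ := by
        intro h0
        apply hinj
        intro x y hxy
        have h2 : f ⟨(x : Q) - y, hmem _⟩ = 0 := by
          have : (⟨(x : Q) - y, hmem _⟩ : B) = x - y := rfl
          rw [this, map_sub, hxy, sub_self]
        have h3 := (hI _).2 h2
        rw [h0, TwoSidedIdeal.mem_bot] at h3
        exact Subtype.ext (sub_eq_zero.1 h3)
      have h2 := hIn I hIne
      obtain ⟨k, hk⟩ := hQ1 (u : Q) v
      have h3 : (2 • ((u : Q) * v - v * u)) ∈ I := by
        rw [hk]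
        exact zsmul_mem_ideal I h2 k
      have h4 := (hI _).1 h3
      exact h4
    · have h2 : 2 • ((u : Q) * v - v * u) = 0 := by
        by_contra hne2
        have h3 := hQ2 _ _ hne2
        apply hB
        rw [eq_top_iff, ← h3, NonUnitalSubring.closure_le]
        rintro x (rfl | hx)
        · exact u.2
        · rw [Set.mem_singleton_iff] at hx
          subst hx
          exact v.2
      have h3 : (2 • (u * v - v * u) : B) = 0 := Subtype.ext h2
      rw [h3, map_zero]
  · rw [satisfies_e2]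
    intro h
    apply hφ0
    rw [hcomm]
    exact h _ _

theorem final (hInv : TaskInv) (hGS : TaskGS) (hCore : TaskCore) (hR1 : TaskR1) (hR2 : TaskR2)
    (hF : TaskF) (hP : TaskP) : ∃ (S : Type) (_ : NonUnitalRing S), Infinite S ∧ Critical S := by
  obtain ⟨I, l, c1, c2, c3, c4⟩ := hCore hInv hGS
  obtain ⟨R, inst, π, hπ⟩ := hR1 I l c1 c2
  exact exists_critical hF hP _ _ (hR2 I l c1 c2 c3 c4 R π hπ)

end Pool.Agent.H854R3.CR
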