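import Pool.Agent.H854R3.CR.Stmts2

/-! Finite rings in which every lift of the generators generates are nilpotent. -/

set_option autoImplicit false

namespace Pool.Agent.H854R3.CR

open Pool.Agent.H854R3.NE

variable {Q : Type} [NonUnitalRing Q]

theorem Pw_left (n : ℕ) : ∀ a ∈ Pw Q n, ∀ b : Q, b * a ∈ Pw Q n := by
  induction n with
  | zero => intro a _ b; trivial
  | succ n ih =>
    intro a ha b
    change a ∈ AddSubgroup.closure _ at ha
    induction ha using AddSubgroup.closure_induction with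
    | mem z hz =>
      obtain ⟨c, hc, d, rfl⟩ := hz
      rw [← mul_assoc]
      exact AddSubgroup.subset_closure ⟨b * c, ih c hc b, d, rfl⟩
    | zero => rw [mul_zero]; exact zero_mem _
    | add x y _ _ h1 h2 => rw [mul_add]; exact add_mem h1 h2
    | neg x _ h1 => rw [mul_neg]; exact neg_mem h1

theorem Pw_succ_le (n : ℕ) : Pw Q (n + 1) ≤ Pw Q n := by
  induction n with
  | zero => exact le_top
  | succ n ih =>
    change AddSubgroup.closure _ ≤ AddSubgroup.closure _
    apply AddSubgroup.closure_mono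
    rintro z ⟨a, ha, b, rfl⟩
    exact ⟨a, ih ha, b, rfl⟩

theorem exists_idem [Finite Q] {q : Q} (hq : ∀ k, npw q k ≠ 0) : ∃ e : Q, e ≠ 0 ∧ e * e = e := by
  obtain ⟨i, j, hij, h⟩ := Finite.exists_ne_map_eq_of_infinite (npw q)
  wlog hlt : i < j generalizing i j
  · exact this j i hij.symm h.symm (lt_of_le_of_ne (not_lt.1 hlt) hij.symm)
  obtain ⟨d, rfl⟩ := Nat.exists_eq_add_of_lt hlt
  -- period d + 1
  have h1 : ∀ m, npw q (i + m) = npw q (i + m + (d + 1)) := by
    intro m
    induction m with
    | zero => exact h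
    | succ m ih =>
      have e1 : npw q (i + (m + 1)) = npw q (i + m) * q := rfl
      have e2 : npw q (i + (m + 1) + (d + 1)) = npw q (i + m + (d + 1)) * q := by
        rw [show i + (m + 1) + (d + 1) = (i + m + (d + 1)) + 1 by ring]
        rfl
      rw [e1, e2, ← ih]
  have h2 : ∀ c m, npw q (i + m) = npw q (i + m + c * (d + 1)) := by
    intro c
    induction c with
    | zero => intro m; simp
    | succ c ih =>
      intro m
      rw [ih m, show i + m + (c + 1) * (d + 1) = i + (m + c * (d + 1)) + (d + 1) by ring, ← h1]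
      congr 1
      ring
  -- exponent (i + 1) * (d + 1)
  obtain ⟨r, hr⟩ : ∃ r, (i + 1) * (d + 1) = (i + r) + 1 := ⟨(i + 1) * d, by ring⟩
  refine ⟨npw q (i + r), hq _, ?_⟩
  rw [← npw_add, show i + r + (i + r) + 1 = i + r + (i + r + 1) by ring, ← hr]
  exact (h2 (i + 1) r).symm

theorem myTaskF : TaskF := by
  classical
  intro Q _ _ X Y hXY
  by_contra hcon
  push Not at hcon
  -- stabilisation
  have hanti : ∀ m n, m ≤ n → Pw Q n ≤ Pw Q m := by
    intro m n hmn
    induction n, hmn using Nat.le_induction with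
    | base => exact le_refl _
    | succ n _ ih => exact (Pw_succ_le n).trans ih
  obtain ⟨N, hN⟩ : ∃ N, Pw Q (N + 1) = Pw Q N := by
    by_contra hst
    push Not at hst
    have hstrict : StrictAnti (Pw Q) := strictAnti_nat_of_succ_lt
      (fun n => lt_of_le_of_ne (Pw_succ_le n) (hst n))
    exact not_injective_infinite_finite (Pw Q) hstrict.injective
  set T := Pw Q N with hT
  have hTr : ∀ a ∈ T, ∀ b : Q, a * b ∈ T := by
    intro a ha b
    rw [← hN]
    exact AddSubgroup.subset_closure ⟨a, ha, b, rfl⟩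
  -- a maximal right submodule
  let 𝒮 : Set (AddSubgroup Q) := {M | M ≤ T ∧ M ≠ T ∧ ∀ m ∈ M, ∀ b : Q, m * b ∈ M}
  have hne : 𝒮.Nonempty := ⟨⊥, bot_le, fun h => hcon N h.symm, by
    intro m hm b
    rw [AddSubgroup.mem_bot] at hm ⊢
    rw [hm, zero_mul]⟩
  obtain ⟨M, hM⟩ := (Set.toFinite 𝒮).exists_maximal hne
  obtain ⟨hMT, hMne, hMr⟩ := hM.prop
  have hmax : ∀ M' : AddSubgroup Q, M' ≤ T → (∀ m ∈ M', ∀ b : Q, m * b ∈ M') → M ≤ M' →
      M' = M ∨ M' = T := by
    intro M' h1 h2 h3
    by_cases h4 : M' = T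
    · exact Or.inr h4
    · exact Or.inl (le_antisymm (hM.le_of_ge (y := M') ⟨h1, h4, h2⟩ h3) h3)
  obtain ⟨t, htT, htM⟩ : ∃ t ∈ T, t ∉ M := by
    by_contra hc
    push Not at hc
    exact hMne (le_antisymm hMT hc)
  -- t is in M + t Q
  obtain ⟨q, hq⟩ : ∃ q : Q, t - t * q ∈ M := by
    let M' : AddSubgroup Q :=
      { carrier := {z | ∃ m ∈ M, ∃ b : Q, z = m + t * b}
        add_mem' := by
          rintro _ _ ⟨m, hm, b, rfl⟩ ⟨m', hm', b', rfl⟩
          exact ⟨m + m', add_mem hm hm', b + b', by rw [mul_add]; abel⟩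
        zero_mem' := ⟨0, zero_mem _, 0, by rw [mul_zero, add_zero]⟩
        neg_mem' := by
          rintro _ ⟨m, hm, b, rfl⟩
          exact ⟨-m, neg_mem hm, -b, by rw [mul_neg]; abel⟩ }
    have hM' : ∀ z, z ∈ M' ↔ ∃ m ∈ M, ∃ b : Q, z = m + t * b := fun z => Iff.rfl
    rcases hmax M' (by
        rintro z ⟨m, hm, b, rfl⟩
        exact add_mem (hMT hm) (hTr t htT b)) (by
        rintro z ⟨m, hm, b, rfl⟩ c
        exact ⟨m * c, hMr m hm c, b * c, by rw [add_mul, mul_assoc]⟩) (by
        intro m hm
        exact ⟨m, hm, 0, by rw [mul_zero, add_zero]⟩) with h | h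
    · exfalso
      let M'' : AddSubgroup Q :=
        { carrier := {z | z ∈ T ∧ ∀ b : Q, z * b ∈ M}
          add_mem' := by
            rintro x y ⟨h1, h2⟩ ⟨h3, h4⟩
            exact ⟨add_mem h1 h3, fun b => by rw [add_mul]; exact add_mem (h2 b) (h4 b)⟩
          zero_mem' := ⟨zero_mem _, fun b => by rw [zero_mul]; exact zero_mem _⟩
          neg_mem' := by
            rintro x ⟨h1, h2⟩
            exact ⟨neg_mem h1, fun b => by rw [neg_mul]; exact neg_mem (h2 b)⟩ }
      have hM'' : ∀ z, z ∈ M'' ↔ z ∈ T ∧ ∀ b : Q, z * b ∈ M := fun z => Iff.rfl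
      have htM'' : t ∈ M'' := (hM'' t).2 ⟨htT, fun b => by
        rw [← h]
        exact (hM' _).2 ⟨0, zero_mem _, b, by rw [zero_add]⟩⟩
      rcases hmax M'' (fun z hz => ((hM'' z).1 hz).1) (by
          intro m hm b
          obtain ⟨h1, h2⟩ := (hM'' m).1 hm
          exact (hM'' _).2 ⟨hTr m h1 b, fun c => hMr _ (h2 b) c⟩) (by
          intro m hm
          exact (hM'' m).2 ⟨hMT hm, fun b => hMr m hm b⟩) with h' | h'
      · rw [h'] at htM''
        exact htM htM''
      · apply hMne
        apply le_antisymm hMT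
        rw [← hN]
        change AddSubgroup.closure _ ≤ M
        rw [AddSubgroup.closure_le]
        rintro z ⟨a, ha, b, rfl⟩
        have h5 : a ∈ M'' := by rw [h']; exact ha
        exact ((hM'' a).1 h5).2 b
    · have h6 : t ∈ M' := by rw [h]; exact htT
      obtain ⟨m, hm, b, hb⟩ := (hM' t).1 h6
      refine ⟨b, ?_⟩
      have : t - t * b = m := by
        rw [sub_eq_iff_eq_add]
        exact hb
      rw [this]
      exact hm
  have hqk : ∀ k, t - t * npw q k ∈ M := by
    intro k
    induction k with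
    | zero => exact hq
    | succ k ih =>
      have h1 : t - t * npw q (k + 1) = (t - t * q) + (t - t * npw q k) * q := by
        change t - t * (npw q k * q) = _
        rw [sub_mul, mul_assoc]
        abel
      rw [h1]
      exact add_mem hq (hMr _ ih q)
  obtain ⟨e, he0, hee⟩ := exists_idem (q := q) (by
    intro k hk
    have := hqk k
    rw [hk, mul_zero, sub_zero] at this
    exact htM this)
  -- the annihilator of e
  let A : NonUnitalSubring Q :=
    { carrier := {z | e * z = 0}
      add_mem' := by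
        intro x y hx hy
        change e * (x + y) = 0
        rw [mul_add, hx, hy, add_zero]
      zero_mem' := mul_zero e
      neg_mem' := by
        intro x hx
        change e * (-x) = 0
        rw [mul_neg, hx, neg_zero]
      mul_mem' := by
        intro x y hx _
        change e * (x * y) = 0
        rw [← mul_assoc, hx, zero_mul] }
  have hA : ∀ z, z ∈ A ↔ e * z = 0 := fun z => Iff.rfl
  have hPw : ∀ x : Q, -(e * x) ∈ Pw Q 1 := fun x =>
    neg_mem (AddSubgroup.subset_closure ⟨e, trivial, x, rfl⟩)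
  have h1 := hXY _ (hPw X) _ (hPw Y)
  have h2 : NonUnitalSubring.closure ({X + -(e * X), Y + -(e * Y)} : Set Q) ≤ A := by
    rw [NonUnitalSubring.closure_le]
    rintro z (rfl | hz)
    · change e * (X + -(e * X)) = 0
      rw [mul_add, mul_neg, ← mul_assoc, hee, add_neg_cancel]
    · rw [Set.mem_singleton_iff] at hz
      subst hz
      change e * (Y + -(e * Y)) = 0
      rw [mul_add, mul_neg, ← mul_assoc, hee, add_neg_cancel]
  rw [h1] at h2
  have h3 : e ∈ A := h2 trivial
  rw [hA, hee] at h3
  exact he0 h3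

end Pool.Agent.H854R3.CR
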