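import Pool.Agent.H854R3.CR.End
import Pool.Agent.H854R3.CR.TaskF
import Pool.Agent.H462R6.CRP
import Pool.Agent.H553R3.CR.Inv
import Pool.Agent.H725R3.CR.R2
import Pool.Agent.H768R3.CRX.R1
import Pool.Agent.H410R3.CRX.Core
import Pool.Agent.H787R3.CR.GS

/-! An infinite critical associative ring. -/

set_option autoImplicit false

namespace Pool.Agent.H854R3.CR

theorem exists_infinite_critical :
    ∃ (S : Type) (_ : NonUnitalRing S), Infinite S ∧ Critical S :=
  final Pool.Agent.H553R3.CR.taskInv Pool.Agent.H787R3.CR.taskGS Pool.Agent.H410R3.CRX.core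
    Pool.Agent.H854R3.CR.R1_768.taskR1 Pool.Agent.H725R3.CR2.taskR2 myTaskF
    Pool.Agent.H462R6.CRP.taskP

end Pool.Agent.H854R3.CR
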