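import Pool.Agent.H854R3.CR.Part1

/-! Assembly of the second part: infinite critical rings of prime characteristic. -/

set_option autoImplicit false

namespace Pool.Agent.H854R3.CR

open Pool.Agent.H854R3.NE

variable {R : Type} [NonUnitalRing R]

theorem PIOn_sub (B : NonUnitalSubring R) (h : IsPI B) :
    PIOn {x : Unitization ℤ R | ∃ b ∈ B, x = (b : Unitization ℤ R)} := by
  let ι : B →ₙ+* R := NonUnitalSubringClass.subtype B
  refine PIOn.map h (mkHom (umap ι) (map_one (umap ι)) (map_mul (umap ι)) (map_zero (umap ι))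
    (map_add (umap ι))) ?_
  rintro _ ⟨b, hb, rfl⟩
  exact ⟨((⟨b, hb⟩ : B) : Unitization ℤ B), ⟨_, rfl⟩, rfl⟩

theorem zero_mul_PI (h : ∀ x y : R, x * y = 0) : IsPI R := by
  refine ⟨2, fun _ => 1, 1, rfl, ?_⟩
  intro a ha
  apply Finset.sum_eq_zero
  intro π _
  obtain ⟨x, hx⟩ := ha (π 0)
  obtain ⟨y, hy⟩ := ha (π 1)
  have h1 : a (π 0) * a (π 1) = 0 := by
    rw [← hx, ← hy]
    have h2 := Unitization.inr_mul ℤ x y
    rw [h x y] at h2
    exact h2.symm.trans (Unitization.inr_zero ℤ)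
  rw [one_smul, List.ofFn_succ, List.prod_cons, List.ofFn_succ, List.prod_cons]
  simp only [Fin.succ_zero_eq_one]
  rw [← mul_assoc, h1, zero_mul]

theorem part2 (hMat : TaskMat) (hNil : TaskNil) (hLeft : TaskLeft) (hAdd : TaskAdd)
    (hPow : TaskPow) (hAb : TaskAb) (hLin : TaskLin) (hDiv : TaskDiv) (hW : TaskW)
    (hDim : TaskDim) (hRep : TaskRep) (hFin : TaskFin)
    (hc : Critical R) (hinf : Infinite R) (p : ℕ) (hp : p.Prime) (hpR : ∀ x : R, p • x = 0) :
    DivRing R := by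
  classical
  have hp' : Fact p.Prime := ⟨hp⟩
  obtain ⟨hfg, hh⟩ := critical_bas hc
  have hnot : ¬ PIPI R := by
    intro h
    have := part1' hMat hNil hLeft hAdd hPow hAb hc h
    exact not_finite R
  obtain ⟨k, hk⟩ := hAdd R hc
  obtain ⟨e, he, hne⟩ := hc
  have hsub : ∀ B : NonUnitalSubring R, B ≠ ⊤ → IsPI B := by
    intro B hB
    refine hLin p e R hpR hne B ?_ (he B (proper_sub B hB))
    intro x
    exact Subtype.ext (hpR x.1)
  have hsimple : ∀ I : TwoSidedIdeal R, I = ⊥ ∨ I = ⊤ := by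
    intro I
    by_contra hcon
    push Not at hcon
    obtain ⟨hb, ht⟩ := hcon
    apply hnot
    let B : NonUnitalSubring R :=
      { carrier := I
        add_mem' := fun {a b} ha hb => I.add_mem ha hb
        zero_mem' := I.zero_mem
        neg_mem' := fun {a} ha => I.neg_mem ha
        mul_mem' := fun {a b} ha _ => I.mul_mem_right _ _ ha }
    have hB : ∀ x, x ∈ B ↔ x ∈ I := fun x => Iff.rfl
    have hBt : B ≠ ⊤ := by
      intro h
      apply ht
      rw [eq_top_iff]
      intro x _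
      rw [← hB, h]
      trivial
    refine ⟨I, PIOn_sub B (hsub B hBt), ?_⟩
    intro Q _ φ hφ hker
    obtain ⟨x, hx, hx0⟩ := exists_mem_ne hb
    refine hLin p e R hpR hne Q ?_ (he Q (proper_quot φ hφ ⟨x, hx0, (hker x).2 hx⟩))
    intro q
    obtain ⟨r, rfl⟩ := hφ q
    rw [← map_nsmul, hpR, map_zero]
  have hmul : ∃ x y : R, x * y ≠ 0 := by
    by_contra hcon
    push Not at hcon
    exact hnot (zero_mul_PI hcon).pipi
  obtain ⟨M, i1, i2, hM⟩ := hW R hfg hsimple hmul
  have hR0 : ∃ x : R, x ≠ 0 := by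
    obtain ⟨h, hh0, _⟩ := hh
    exact ⟨h, hh0⟩
  have hfin := hDim R M k hR0 hM hk
  apply hDiv R _ hmul
  intro L hL
  by_contra hcon
  push Not at hcon
  obtain ⟨hb, ht⟩ := hcon
  let B : NonUnitalSubring R :=
    { L with
      mul_mem' := fun {a b} _ hb => hL a b hb }
  have hB : ∀ x, x ∈ B ↔ x ∈ L := fun x => Iff.rfl
  have hBt : B ≠ ⊤ := by
    intro h
    apply ht
    rw [eq_top_iff]
    intro x _
    rw [← hB, h]
    trivial
  obtain ⟨K, iK, s, Θ, β, hβ⟩ := hRep R M hM hfin L hL hb (PIOn_sub B (hsub B hBt))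
  have := hFin R hfg hsimple K s Θ β hβ
  exact not_finite R

end Pool.Agent.H854R3.CR
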