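import Pool.Agent.H854R3.CR.PIFinite
import Pool.Agent.H854R3.CR.Part2
import Pool.Agent.H150R3.CR.Dim
import Pool.Agent.H20R3.CRTaskW
import Pool.Agent.H780R3.CR.Div
import Pool.Agent.H941R3.CR.Fin
import Pool.Agent.H493R3.CR.Rep

/-! Infinite critical rings of prime characteristic are division rings. -/

set_option autoImplicit false

namespace Pool.Agent.H854R3.CR

theorem critical_char_p (hLin : TaskLin) {R : Type} [NonUnitalRing R] (hc : Critical R)
    (hinf : Infinite R) (p : ℕ) (hp : p.Prime) (hpR : ∀ x : R, p • x = 0) : DivRing R :=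
  part2 Pool.Agent.H66R3.CR.taskMat Pool.Agent.H214R3.CR.taskNil
    Pool.Agent.H428R3.CRLeft.left Pool.Agent.H944R3.CRAdd.taskAdd
    Pool.Agent.H265R3.CRPow.taskPow Pool.Agent.H158I.CR.Ab.taskAb hLin
    Pool.Agent.H780R3.CR.taskDiv Pool.Agent.H20R3.CRW.taskW Pool.Agent.H150R3.CR.taskDim
    Pool.Agent.H493R3.CR.taskRep Pool.Agent.H941R3.CR.taskFin hc hinf p hp hpR

end Pool.Agent.H854R3.CR
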