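import Pool.Agent.H854R3.CR.Part1
import Pool.Agent.H66R3.CR.Mat
import Pool.Agent.H265R3.CRPow
import Pool.Agent.H214R3.CR.Nil
import Pool.Agent.H428R3.CRLeft
import Pool.Agent.H944R3.CRAdd
import Pool.Agent.H158I.CR.Ab

/-! Critical PI rings are finite. -/

set_option autoImplicit false

namespace Pool.Agent.H854R3.CR

theorem critical_PI_finite {R : Type} [NonUnitalRing R] (hc : Critical R) (h : IsPI R) :
    Finite R :=
  part1' Pool.Agent.H66R3.CR.taskMat Pool.Agent.H214R3.CR.taskNil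
    Pool.Agent.H428R3.CRLeft.left Pool.Agent.H944R3.CRAdd.taskAdd
    Pool.Agent.H265R3.CRPow.taskPow Pool.Agent.H158I.CR.Ab.taskAb hc h.pipi

end Pool.Agent.H854R3.CR
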