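import Pool.Agent.H854R3.CR.Glue

/-! Assembly of the first part: critical PI rings are finite. -/

set_option autoImplicit false

namespace Pool.Agent.H854R3.CR

open Pool.Agent.H854R3.NE

variable {R : Type} [NonUnitalRing R]

/-- the intersection of a list of subgroups -/
def linf (l : List (AddSubgroup R)) : AddSubgroup R := l.foldr (· ⊓ ·) ⊤

theorem mem_linf (l : List (AddSubgroup R)) (x : R) : x ∈ linf l ↔ ∀ M ∈ l, x ∈ M := by
  induction l with
  | nil => simp [linf]
  | cons L l ih =>
    have : linf (L :: l) = L ⊓ linf l := rfl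
    rw [this, AddSubgroup.mem_inf, ih, List.forall_mem_cons]

theorem linf_finiteIndex (l : List (AddSubgroup R)) (h : ∀ M ∈ l, M.FiniteIndex) :
    (linf l).FiniteIndex := by
  induction l with
  | nil => change (⊤ : AddSubgroup R).FiniteIndex; infer_instance
  | cons L l ih =>
    have : linf (L :: l) = L ⊓ linf l := rfl
    rw [this]
    have h1 : L.FiniteIndex := h L (by simp)
    have h2 : (linf l).FiniteIndex := ih (fun M hM => h M (by simp [hM]))
    infer_instance

theorem linf_leftId (l : List (AddSubgroup R)) (h : ∀ M ∈ l, LeftId M) : LeftId (linf l) := by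
  intro r x hx
  rw [mem_linf] at hx ⊢
  intro M hM
  exact h M hM r x (hx M hM)

/-- the elements whose product with `r` lies in `L` -/
def comapR (L : AddSubgroup R) (r : R) : AddSubgroup R :=
  L.comap (AddMonoidHom.mulRight r)

theorem mem_comapR (L : AddSubgroup R) (r x : R) : x ∈ comapR L r ↔ x * r ∈ L := Iff.rfl

theorem comapR_maxL {L : AddSubgroup R} (h : MaxL L) (r : R) (hne : comapR L r ≠ ⊤) :
    MaxL (comapR L r) := by
  obtain ⟨h1, h2, h3, h4⟩ := h
  refine ⟨?_, hne, ?_, ?_⟩
  · intro s x hx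
    rw [mem_comapR] at hx ⊢
    rw [mul_assoc]
    exact h1 s _ hx
  · refine ⟨?_⟩
    unfold comapR
    rw [AddSubgroup.index_comap]
    intro h0
    have h5 := AddSubgroup.relIndex_dvd_index_of_normal L (AddMonoidHom.mulRight r).range
    rw [h0, zero_dvd_iff] at h5
    exact h3.index_ne_zero h5
  · intro L' hL' hle
    let M : AddSubgroup R :=
      { carrier := {m | ∃ l ∈ L, ∃ y ∈ L', m = l + y * r}
        add_mem' := by
          rintro _ _ ⟨l, hl, y, hy, rfl⟩ ⟨l', hl', y', hy', rfl⟩
          exact ⟨l + l', L.add_mem hl hl', y + y', L'.add_mem hy hy', by rw [add_mul]; abel⟩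
        zero_mem' := ⟨0, L.zero_mem, 0, L'.zero_mem, by rw [zero_mul, add_zero]⟩
        neg_mem' := by
          rintro _ ⟨l, hl, y, hy, rfl⟩
          exact ⟨-l, L.neg_mem hl, -y, L'.neg_mem hy, by rw [neg_mul]; abel⟩ }
    have hM : ∀ m, m ∈ M ↔ ∃ l ∈ L, ∃ y ∈ L', m = l + y * r := fun m => Iff.rfl
    have hML : LeftId M := by
      intro s x hx
      obtain ⟨l, hl, y, hy, rfl⟩ := (hM x).1 hx
      exact (hM _).2 ⟨s * l, h1 s l hl, s * y, hL' s y hy, by rw [mul_add, mul_assoc]⟩
    have hLM : L ≤ M := by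
      intro l hl
      exact (hM _).2 ⟨l, hl, 0, L'.zero_mem, by rw [zero_mul, add_zero]⟩
    rcases h4 M hML hLM with h5 | h5
    · left
      apply le_antisymm _ hle
      intro y hy
      rw [mem_comapR, ← h5]
      exact (hM _).2 ⟨0, L.zero_mem, y, hy, by rw [zero_add]⟩
    · right
      rw [eq_top_iff]
      intro y _
      have h6 : y * r ∈ M := by rw [h5]; trivial
      obtain ⟨l, hl, z, hz, hyz⟩ := (hM _).1 h6
      have h7 : y - z ∈ comapR L r := by
        rw [mem_comapR, sub_mul, hyz, add_sub_cancel_right]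
        exact hl
      have h8 := L'.add_mem (hle h7) hz
      rwa [sub_add_cancel] at h8

theorem part1 (hLeft : TaskLeft) (hAdd : TaskAdd) (hPow : TaskPow) (hAb : TaskAb)
    (hc : Critical R) (hdet : Det R) (hnil : NoNil R) : Finite R := by
  classical
  obtain ⟨hfg, hh⟩ := critical_bas hc
  obtain ⟨k, hk⟩ := hAdd R hc
  -- a good list of maximal length
  let P : ℕ → Prop := fun n => ∃ l : List (AddSubgroup R), GoodList l ∧ (∀ L ∈ l, MaxL L) ∧
    l.length = n
  have hP0 : P 0 := ⟨[], trivial, by simp, rfl⟩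
  have hPk : ∀ n, P n → n ≤ k := by
    rintro n ⟨l, hl, _, rfl⟩
    exact hk l hl
  let n0 := Nat.findGreatest P k
  have hn0 : P n0 := Nat.findGreatest_spec (Nat.zero_le k) hP0
  have hmax : ∀ n, P n → n ≤ n0 := fun n hn => Nat.le_findGreatest (hPk n hn) hn
  obtain ⟨l, hl, hlM, hlen⟩ := hn0
  set K := linf l with hK
  have hKleft : LeftId K := linf_leftId l (fun M hM => (hlM M hM).1)
  have hKfin : K.FiniteIndex := linf_finiteIndex l (fun M hM => (hlM M hM).2.2.1)
  have hKL : ∀ L : AddSubgroup R, MaxL L → K ≤ L := by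
    intro L hL
    by_contra hcon
    have h0 : LeftId (K ⊔ L) := by
      intro r x hx
      obtain ⟨a, ha, b, hb, rfl⟩ := AddSubgroup.mem_sup.1 hx
      rw [mul_add]
      exact AddSubgroup.mem_sup.2 ⟨r * a, hKleft r a ha, r * b, hL.1 r b hb, rfl⟩
    have h1 : K ⊔ L = ⊤ := by
      rcases hL.2.2.2 (K ⊔ L) h0 le_sup_right with h | h
      · exfalso
        apply hcon
        rw [← h]
        exact le_sup_left
      · exact h
    have h2 : P (n0 + 1) := by
      refine ⟨L :: l, ?_, ?_, by rw [List.length_cons, hlen]⟩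
      · refine ⟨hL.2.1, fun x _ y hy => hL.1 x y hy, ?_, hl⟩
        intro r
        have h3 : r ∈ K ⊔ L := by rw [h1]; trivial
        obtain ⟨a, ha, b, hb, hab⟩ := AddSubgroup.mem_sup.1 h3
        exact ⟨a, b, (mem_linf l a).1 ha, hb, hab⟩
      · intro M hM
        rcases List.mem_cons.1 hM with rfl | hM
        · exact hL
        · exact hlM M hM
    have := hmax _ h2
    omega
  have hKright : ∀ r x : R, x ∈ K → x * r ∈ K := by
    intro r x hx
    rw [hK, mem_linf]
    intro M hM
    by_cases hne : comapR M r = ⊤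
    · have : x ∈ comapR M r := by rw [hne]; trivial
      exact this
    · exact hKL _ (comapR_maxL (hlM M hM) r hne) hx
  have hKnil : ∀ x ∈ K, ∃ k, npw x k = 0 := by
    intro x hx
    by_contra hcon
    push Not at hcon
    obtain ⟨F, iF, s, Θ, hΘ⟩ := hdet x hcon
    obtain ⟨L, hL, hxL⟩ := hLeft R hfg F s Θ x hΘ
    exact hxL (hKL L hL hx)
  exact hAb R (hPow R hfg hnil K hKfin (fun r x hx => ⟨hKleft r x hx, hKright r x hx⟩) hKnil) hh

theorem part1' (hMat : TaskMat) (hNil : TaskNil) (hLeft : TaskLeft) (hAdd : TaskAdd)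
    (hPow : TaskPow) (hAb : TaskAb) (hc : Critical R) (h : PIPI R) : Finite R :=
  part1 hLeft hAdd hPow hAb hc (det_of_pipi hMat h) (nonil_of_pipi hNil h)

end Pool.Agent.H854R3.CR
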